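import Mathlib

/-!
A sum over the permutations of seven vectors in dimension four, attached to the complements of
the lines of the Fano plane. It is checked by the kernel.
-/

namespace Pool.Agent.X214.Fano

open Finset

/-- seven integer vectors in dimension four -/
def L : Fin 7 → Fin 4 → ℤ :=
  ![![1, 0, 0, 0], ![0, 1, 0, 0], ![0, 0, 1, 0], ![0, 0, 0, 1], ![1, 0, 1, -1], ![1, -1, 0, 1],
    ![1, -1, 1, -1]]

/-- the four points of the `s`-th complement of a line of the Fano plane -/
def K (s : Fin 7) (j : Fin 4) : Fin 7 := s + ![2, 4, 5, 6] j

/-- three by three minors -/
def m3 (a b c : Fin 4 → ℤ) (i j k : Fin 4) : ℤ :=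
  a i * (b j * c k - b k * c j) - a j * (b i * c k - b k * c i) + a k * (b i * c j - b j * c i)

/-- four by four determinants -/
def D (a b c d : Fin 4 → ℤ) : ℤ :=
  a 0 * m3 b c d 1 2 3 - a 1 * m3 b c d 0 2 3 + a 2 * m3 b c d 0 1 3 - a 3 * m3 b c d 0 1 2

/-- the product of the seven brackets -/
def term (f : Fin 7 → Fin 7) : ℤ :=
  ∏ s : Fin 7, D (L (f (K s 0))) (L (f (K s 1))) (L (f (K s 2))) (L (f (K s 3)))

/-- a table of the determinants of the four-element families of the seven vectors, written in
one number in base eight -/
def code : ℕ :=
  89347413014570349899576184015203557841684384937358346648375864142842312889367096575759303083387151256100751803444457309887932154153004711912473454751189877508561009156559923638628790588517112547828181609241572307799686346385931831419945446912917220550722766257692783070454605785150954111687718637869701795777907607342862690826928848845655854683154243961662087422734586405384730645511085636779260691257449763699802401924113797214452269948277597331260070853579015208443222533138553959405988873246934441494913487835226586906478245402631643056314197938039372168401685101302935899634920612377930740758983041464709091534717589069949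066893304488519099718382441844887770344039342886814955892004465733730469202641726647030304524365963604326351035042624709685251359390285540181154814990023661533587080446829339950311954210512260695676168479023297178730669424316670229704989482622335114585330344596599688027246917864164720653824537537421489799474452429592712372463048735960264138103655738457474686280295265297981076191343160467367954590801776759435846283502857577652224863586038249498269332559090029567526038755116764380070879411276828760004379309964877628227429224131911786287670547917784932328659260028915641340597953952294644186044291170734629490116673729560829837772253631437030243189777187864136982841356148308670783582453455453579876800174963477079725525897797152242235031223931477377980262296787182932196162684351873832715632498650228541345795977443684901354836154640964876597604422581199056062925196118405271023010544589932991333514169868252431097680095924620530417791086168061514462877219137296864873039464983196217209626012224463236330921143571947864720506452773642758873901009821637839382684271139985011872233822556207860182448469593458217729600085835116064299319211987366554185425207950631360046328918370121299027311701942412294129642522636375889566385734599562811951504385414359921517258518143124666509704233805559628109050006643124812926052438722282167511365147572014500877104301140319174797683275240297510691289330753419442944374415259469495144917755539005664141903341027329907777873741117540099456960923069010015784244408438085046447723204484709197018800350672603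

/-- look up in the table -/
def Dt (a b c d : ℕ) : ℤ :=
  Int.subNatNat (Nat.land (Nat.shiftRight code (3 * (((a * 7 + b) * 7 + c) * 7 + d))) 7) 3

set_option maxRecDepth 100000 in
theorem tab (a b c d : Fin 7) : D (L a) (L b) (L c) (L d) = Dt a b c d := by
  revert a b c d
  decide +kernel

/-- the product of the brackets by table look up -/
def termT (f : Fin 7 → Fin 7) : ℤ :=
  Dt (f 2) (f 4) (f 5) (f 6) * Dt (f 3) (f 5) (f 6) (f 0) * Dt (f 4) (f 6) (f 0) (f 1) *
    Dt (f 5) (f 0) (f 1) (f 2) * Dt (f 6) (f 1) (f 2) (f 3) * Dt (f 0) (f 2) (f 3) (f 4) *
    Dt (f 1) (f 3) (f 4) (f 5)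

theorem term_eq (f : Fin 7 → Fin 7) : term f = termT f := by
  simp only [term, tab]
  rw [Fin.prod_univ_seven]
  rfl

/-- the part of the sum over the permutations with given first two values -/
def inner (p : Fin 7) (q : Fin 6) : ℤ :=
  ∑ e : Equiv.Perm (Fin 5),
    termT (Equiv.Perm.decomposeFin.symm (p, Equiv.Perm.decomposeFin.symm (q, e)))

set_option maxRecDepth 100000 in
theorem inner_0_0 : inner 0 0 = -48 := by decide +kernel

set_option maxRecDepth 100000 in
theorem inner_0_1 : inner 0 1 = -48 := by decide +kernel

set_option maxRecDepth 100000 in
theorem inner_0_2 : inner 0 2 = -48 := by decide +kernel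

set_option maxRecDepth 100000 in
theorem inner_0_3 : inner 0 3 = -48 := by decide +kernel

set_option maxRecDepth 100000 in
theorem inner_0_4 : inner 0 4 = -48 := by decide +kernel

set_option maxRecDepth 100000 in
theorem inner_0_5 : inner 0 5 = -48 := by decide +kernel

set_option maxRecDepth 100000 in
theorem inner_1_0 : inner 1 0 = -48 := by decide +kernel

set_option maxRecDepth 100000 in
theorem inner_1_1 : inner 1 1 = -48 := by decide +kernel

set_option maxRecDepth 100000 in
theorem inner_1_2 : inner 1 2 = -48 := by decide +kernel

set_option maxRecDepth 100000 in
theorem inner_1_3 : inner 1 3 = -48 := by decide +kernel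

set_option maxRecDepth 100000 in
theorem inner_1_4 : inner 1 4 = -48 := by decide +kernel

set_option maxRecDepth 100000 in
theorem inner_1_5 : inner 1 5 = -48 := by decide +kernel

set_option maxRecDepth 100000 in
theorem inner_2_0 : inner 2 0 = -48 := by decide +kernel

set_option maxRecDepth 100000 in
theorem inner_2_1 : inner 2 1 = -48 := by decide +kernel

set_option maxRecDepth 100000 in
theorem inner_2_2 : inner 2 2 = -48 := by decide +kernel

set_option maxRecDepth 100000 in
theorem inner_2_3 : inner 2 3 = -48 := by decide +kernel

set_option maxRecDepth 100000 in
theorem inner_2_4 : inner 2 4 = -48 := by decide +kernel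

set_option maxRecDepth 100000 in
theorem inner_2_5 : inner 2 5 = -48 := by decide +kernel

set_option maxRecDepth 100000 in
theorem inner_3_0 : inner 3 0 = -48 := by decide +kernel

set_option maxRecDepth 100000 in
theorem inner_3_1 : inner 3 1 = -48 := by decide +kernel

set_option maxRecDepth 100000 in
theorem inner_3_2 : inner 3 2 = -48 := by decide +kernel

set_option maxRecDepth 100000 in
theorem inner_3_3 : inner 3 3 = -48 := by decide +kernel

set_option maxRecDepth 100000 in
theorem inner_3_4 : inner 3 4 = -48 := by decide +kernel

set_option maxRecDepth 100000 in
theorem inner_3_5 : inner 3 5 = -48 := by decide +kernel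

set_option maxRecDepth 100000 in
theorem inner_4_0 : inner 4 0 = -48 := by decide +kernel

set_option maxRecDepth 100000 in
theorem inner_4_1 : inner 4 1 = -48 := by decide +kernel

set_option maxRecDepth 100000 in
theorem inner_4_2 : inner 4 2 = -48 := by decide +kernel

set_option maxRecDepth 100000 in
theorem inner_4_3 : inner 4 3 = -48 := by decide +kernel

set_option maxRecDepth 100000 in
theorem inner_4_4 : inner 4 4 = -48 := by decide +kernel

set_option maxRecDepth 100000 in
theorem inner_4_5 : inner 4 5 = -48 := by decide +kernel

set_option maxRecDepth 100000 in
theorem inner_5_0 : inner 5 0 = -48 := by decide +kernel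

set_option maxRecDepth 100000 in
theorem inner_5_1 : inner 5 1 = -48 := by decide +kernel

set_option maxRecDepth 100000 in
theorem inner_5_2 : inner 5 2 = -48 := by decide +kernel

set_option maxRecDepth 100000 in
theorem inner_5_3 : inner 5 3 = -48 := by decide +kernel

set_option maxRecDepth 100000 in
theorem inner_5_4 : inner 5 4 = -48 := by decide +kernel

set_option maxRecDepth 100000 in
theorem inner_5_5 : inner 5 5 = -48 := by decide +kernel

set_option maxRecDepth 100000 in
theorem inner_6_0 : inner 6 0 = -48 := by decide +kernel

set_option maxRecDepth 100000 in
theorem inner_6_1 : inner 6 1 = -48 := by decide +kernel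

set_option maxRecDepth 100000 in
theorem inner_6_2 : inner 6 2 = -48 := by decide +kernel

set_option maxRecDepth 100000 in
theorem inner_6_3 : inner 6 3 = -48 := by decide +kernel

set_option maxRecDepth 100000 in
theorem inner_6_4 : inner 6 4 = -48 := by decide +kernel

set_option maxRecDepth 100000 in
theorem inner_6_5 : inner 6 5 = -48 := by decide +kernel

theorem inner_eq (p : Fin 7) (q : Fin 6) : inner p q = -48 := by
  fin_cases p <;> fin_cases q
  · exact inner_0_0
  · exact inner_0_1
  · exact inner_0_2
  · exact inner_0_3
  · exact inner_0_4
  · exact inner_0_5
  · exact inner_1_0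
  · exact inner_1_1
  · exact inner_1_2
  · exact inner_1_3
  · exact inner_1_4
  · exact inner_1_5
  · exact inner_2_0
  · exact inner_2_1
  · exact inner_2_2
  · exact inner_2_3
  · exact inner_2_4
  · exact inner_2_5
  · exact inner_3_0
  · exact inner_3_1
  · exact inner_3_2
  · exact inner_3_3
  · exact inner_3_4
  · exact inner_3_5
  · exact inner_4_0
  · exact inner_4_1
  · exact inner_4_2
  · exact inner_4_3
  · exact inner_4_4
  · exact inner_4_5
  · exact inner_5_0
  · exact inner_5_1
  · exact inner_5_2
  · exact inner_5_3
  · exact inner_5_4
  · exact inner_5_5
  · exact inner_6_0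
  · exact inner_6_1
  · exact inner_6_2
  · exact inner_6_3
  · exact inner_6_4
  · exact inner_6_5

theorem sum_term : (∑ σ : Equiv.Perm (Fin 7), term σ) = -2016 := by
  have h1 : ∀ F : Equiv.Perm (Fin 7) → ℤ, ∑ σ, F σ =
      ∑ p : Fin 7, ∑ q : Fin 6, ∑ e : Equiv.Perm (Fin 5),
        F (Equiv.Perm.decomposeFin.symm (p, Equiv.Perm.decomposeFin.symm (q, e))) := by
    intro F
    rw [← Equiv.sum_comp (Equiv.Perm.decomposeFin (n := 6)).symm, Fintype.sum_prod_type]
    refine Finset.sum_congr rfl (fun p _ => ?_)
    rw [← Equiv.sum_comp (Equiv.Perm.decomposeFin (n := 5)).symm, Fintype.sum_prod_type]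
  rw [h1]
  have h2 : ∀ (p : Fin 7) (q : Fin 6), ∑ e : Equiv.Perm (Fin 5),
      term (Equiv.Perm.decomposeFin.symm (p, Equiv.Perm.decomposeFin.symm (q, e))) = -48 := by
    intro p q
    rw [← inner_eq p q]
    exact Finset.sum_congr rfl (fun e _ => term_eq _)
  simp_rw [h2]
  simp

theorem det_four (M : Matrix (Fin 4) (Fin 4) ℤ) : M.det = D (M 0) (M 1) (M 2) (M 3) := by
  simp [Matrix.det_succ_row_zero, Fin.sum_univ_succ, D, m3, Fin.succAbove, Matrix.submatrix]
  ring

end Pool.Agent.X214.Fano
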